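import Pool.Agent.Helper10.Fam.Stmts

/-!
# Module CONE: linear functionals on a cone
-/

set_option autoImplicit false

namespace Pool.Agent.Helper10.Fam

theorem cone_fn_nonneg (v : List ℕ) (i : ℕ) : 0 ≤ fn v i := Nat.cast_nonneg _

theorem cone_norm (hC : ST_LSTC) (D : Dat) (x : ℕ → ℝ) (hd : 0 < D.d) (hx : IsPt D x) (v : List ℕ) :
    Real.sqrt (bl D.H (fn v) (fn v) / D.d) ≤ bl D.H x (fn v) / D.d := by
  have hd' : (0 : ℝ) < D.d := by exact_mod_cast hd
  have h1 := hx.rcs (fn v)
  have h2 : 0 ≤ bl D.H x (fn v) := hC.bl_nonneg D.H x (fn v) hx.nn (cone_fn_nonneg v)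
  rw [Real.sqrt_le_left (by positivity)]
  rw [div_pow, div_le_div_iff₀ hd' (by positivity)]
  nlinarith

theorem st_CONE (hA : ST_LSTA) (hC : ST_LSTC) : ST_CONE := by
  intro D x hd hx L y hy a B hB
  have hd' : (0 : ℝ) < D.d := by exact_mod_cast hd
  induction hy with
  | nil y h0 =>
    intro _
    have e : y = fun i => (0 : ℝ) * y i := by
      funext i
      rw [h0 i, mul_zero]
    have e1 : dx a y = 0 := by
      rw [e, hA.dx_smul, zero_mul]
    have e2 : bl D.H x y = 0 := by
      rw [e, hC.bl_smul_right, zero_mul]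
    rw [e1, e2]
    simp
  | cons v L t z y ht _ hz ih =>
    intro hL
    have hih := ih (fun w hw => hL w (List.mem_cons_of_mem _ hw))
    have hv := hL v List.mem_cons_self
    have e : z = fun i => (fun j => t * fn v.v j) i + y i := by
      funext i
      exact hz i
    have e1 : dx a z = t * dx a (fn v.v) + dx a y := by
      rw [e, hA.dx_add, hA.dx_smul]
    have e2 : bl D.H x z = t * bl D.H x (fn v.v) + bl D.H x y := by
      rw [e, hC.bl_add_right, hC.bl_smul_right]
    rw [e1, e2]
    have h1 := cone_norm hC D x hd hx v.v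
    have h2 : dx a (fn v.v) ≤ B * (bl D.H x (fn v.v) / D.d) :=
      hv.trans (mul_le_mul_of_nonneg_left h1 hB)
    have h3 := mul_le_mul_of_nonneg_left h2 ht
    have e3 : B * ((t * bl D.H x (fn v.v) + bl D.H x y) / D.d) =
        t * (B * (bl D.H x (fn v.v) / D.d)) + B * (bl D.H x y / D.d) := by ring
    rw [e3]
    linarith

end Pool.Agent.Helper10.Fam
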