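import Pool.Agent.Helper10.Fam.Stmts

/-!
# Module TANG: the tangent of `(c - u)₊² / u²`
-/

set_option autoImplicit false

namespace Pool.Agent.Helper10.Fam

theorem tang_real (C t u : ℝ) (ht : 0 < t) (htC : t < C) (hu : 0 < u) :
    (C - t) * (3 * C - t) / t ^ 2 - 2 * C * (C - t) / t ^ 3 * u ≤ (max 0 (C - u)) ^ 2 / u ^ 2 := by
  have hC : 0 < C := ht.trans htC
  have hL : (C - t) * (3 * C - t) / t ^ 2 - 2 * C * (C - t) / t ^ 3 * u =
      ((C - t) * (3 * C - t) * t - 2 * C * (C - t) * u) / t ^ 3 := by
    field_simp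
  rw [hL, div_le_div_iff₀ (by positivity) (by positivity)]
  rcases le_total u C with h | h
  · rw [max_eq_right (by linarith)]
    have key : (C - u) ^ 2 * t ^ 3 - ((C - t) * (3 * C - t) * t - 2 * C * (C - t) * u) * u ^ 2 =
        (u - t) ^ 2 * (2 * C * (C - t) * u + C ^ 2 * t) := by ring
    have h1 : 0 ≤ (u - t) ^ 2 * (2 * C * (C - t) * u + C ^ 2 * t) := by
      have : 0 < C - t := by linarith
      positivity
    linarith
  · rw [max_eq_left (by linarith)]
    have h1 : (C - t) * (3 * C - t) * t - 2 * C * (C - t) * u ≤ 0 := by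
      have h2 : (C - t) * (3 * C - t) * t - 2 * C * (C - t) * u =
          -((C - t) * ((2 * C - t) * (C - t) + 2 * C * (u - C))) := by ring
      rw [h2, neg_nonpos]
      have h3 : 0 < C - t := by linarith
      have h4 : 0 < 2 * C - t := by linarith
      have h5 : 0 ≤ u - C := by linarith
      positivity
    have h6 : 0 ≤ u ^ 2 := sq_nonneg u
    nlinarith

theorem st_TANG : ST_TANG := by
  intro c a u hu
  unfold tang
  split_ifs with h1 h2
  · simp only [Nat.cast_zero, zero_mul, sub_zero]
    unfold pp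
    positivity
  · simp only [Nat.cast_zero, zero_mul, sub_zero]
    unfold pp
    positivity
  · have ha : 0 < a := by
      rcases Nat.eq_zero_or_pos a with h | h
      · subst h
        simp at h1
      · exact h
    have hac : a < c := by
      by_contra hcon
      exact h2 (Nat.ble_eq_true_of_le (by omega))
    have ha' : (0 : ℝ) < a := by exact_mod_cast ha
    have hac' : (a : ℝ) < c := by exact_mod_cast hac
    have e1 : ((c - a : ℕ) : ℝ) = (c : ℝ) - a := Nat.cast_sub hac.le
    have e2 : ((3 * c - a : ℕ) : ℝ) = 3 * (c : ℝ) - a := by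
      rw [Nat.cast_sub (by omega)]
      push_cast
      ring
    have b1 : ((1000000 * (c - a) * (3 * c - a) / (a * a) : ℕ) : ℝ) ≤
        1000000 * ((c : ℝ) - a) * (3 * c - a) / (a * a) := by
      have := Nat.cast_div_le (α := ℝ) (m := 1000000 * (c - a) * (3 * c - a)) (n := a * a)
      push_cast at this
      rw [e1, e2] at this
      exact this
    have b2 : (2000000 * ((c : ℝ) - a) * c * 1000) / (a * a * a) ≤
        (((2000000 * (c - a) * c * 1000) / (a * a * a) + 1 : ℕ) : ℝ) := by
      have hpos : 0 < a * a * a := by positivity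
      have h3 := Nat.lt_mul_div_succ (2000000 * (c - a) * c * 1000) hpos
      have h4 : ((2000000 * (c - a) * c * 1000 : ℕ) : ℝ) <
          ((a * a * a * ((2000000 * (c - a) * c * 1000) / (a * a * a) + 1) : ℕ) : ℝ) := by
        exact_mod_cast h3
      rw [div_le_iff₀ (by positivity)]
      have h5 : ((2000000 * (c - a) * c * 1000 : ℕ) : ℝ) = 2000000 * ((c : ℝ) - a) * c * 1000 := by
        push_cast
        rw [e1]
      rw [h5] at h4
      rw [Nat.cast_mul (a * a * a)] at h4
      push_cast at h4 ⊢
      linarith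
    have key := tang_real ((c : ℝ) / 1000) ((a : ℝ) / 1000) u (by positivity) (by linarith) hu
    have e3 : ((c : ℝ) / 1000 - a / 1000) * (3 * (c / 1000) - a / 1000) / (a / 1000) ^ 2 =
        (1000000 * ((c : ℝ) - a) * (3 * c - a) / (a * a)) / 1000000 := by
      field_simp
    have e4 : 2 * ((c : ℝ) / 1000) * (c / 1000 - a / 1000) / (a / 1000) ^ 3 =
        (2000000 * ((c : ℝ) - a) * c * 1000) / (a * a * a) / 1000000 := by
      field_simp
      ring
    rw [e3, e4] at key
    have e5 : pp c u / u ^ 2 = (max 0 ((c : ℝ) / 1000 - u)) ^ 2 / u ^ 2 := rfl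
    rw [e5]
    have b3 := mul_le_mul_of_nonneg_right b2 hu.le
    have e6 : 1000000 * (1000000 * ((c : ℝ) - a) * (3 * c - a) / (a * a) / 1000000 -
        2000000 * ((c : ℝ) - a) * c * 1000 / (a * a * a) / 1000000 * u) =
        1000000 * ((c : ℝ) - a) * (3 * c - a) / (a * a) -
        2000000 * ((c : ℝ) - a) * c * 1000 / (a * a * a) * u := by ring
    have b4 := mul_le_mul_of_nonneg_left key (by norm_num : (0 : ℝ) ≤ 1000000)
    rw [e6] at b4
    simp only
    linarith

end Pool.Agent.Helper10.Fam
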