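import Pool.Agent.Helper10.Fam.Stmts

/-!
# Module TSUM: sum of the tangents
-/

set_option autoImplicit false

namespace Pool.Agent.Helper10.Fam

theorem tsum_dx_zero : ∀ (X : List ℕ) (x : ℕ → ℝ), dx (X.map fun _ => 0) x = 0
  | [], _ => rfl
  | _ :: s, x => by
    have h := tsum_dx_zero s (fun i => x (i + 1))
    simp only [List.map_cons, dx, h, Nat.cast_zero, zero_mul, add_zero]

theorem st_TSUM (hT : ST_TANG) (hA : ST_LSTA) : ST_TSUM := by
  intro c X W x
  induction W with
  | nil =>
    intro _ _
    refine ⟨?_, ?_⟩
    · simp [tsum]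
    · have h := tsum_dx_zero X x
      have e : tsum c X [] = (0, X.map fun _ => 0) := rfl
      rw [e]
      simp only [h, Nat.cast_zero, sub_zero, List.map_nil, List.sum_nil, mul_zero, le_refl]
  | cons w t ih =>
    intro hlen hpos
    obtain ⟨i1, i2⟩ := ih (fun v hv => hlen v (List.mem_cons_of_mem _ hv))
      (fun v hv => hpos v (List.mem_cons_of_mem _ hv))
    have hw : w.length = X.length := hlen w List.mem_cons_self
    have hwx : 0 < dx w x := hpos w List.mem_cons_self
    have hl : w.length = (tsum c X t).2.length := by rw [hw, i1]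
    have e : tsum c X (w :: t) = ((tsum c X t).1 + (tang c (dn w X)).1,
        ax (tang c (dn w X)).2 w (tsum c X t).2) := rfl
    rw [e]
    refine ⟨?_, ?_⟩
    · simp only
      rw [hA.len_ax _ _ _ hl, i1]
    · simp only
      rw [hA.dx_ax _ _ _ x hl, List.map_cons, List.sum_cons]
      have h1 := hT c (dn w X) (dx w x) hwx
      push_cast
      linarith

end Pool.Agent.Helper10.Fam
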